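import Pool.Agent.Lib_helper49.Pluri.S4

/-!
# From the cube `{-1,1}^(2n)` to `{1, -1, i, -i}^n`

For `f(x,y) = Re F(x + i y)`, `F` multi-affine with coefficients `c`: the influences of `x_j`, `y_j`
and the variance, as averages over the cube, in terms of the coefficients.
-/

set_option autoImplicit false

namespace Pool.Agent.Lib_helper49.Pluri

open Complex ComplexConjugate

/-- the complex number `(-1)^a + i (-1)^b` -/
noncomputable def zz (a b : Bool) : ℂ := (-1) ^ a.toNat + (-1) ^ b.toNat * I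

/-- the four points as pairs of signs -/
def ev : Fin 4 → Bool × Bool := ![(false, false), (true, true), (true, false), (false, true)]

lemma ev_bij : Function.Bijective ev := by decide

lemma zz_ev (k : Fin 4) : zz (ev k).1 (ev k).2 = (1 + I) * qv k := by
  have hI : I * I = -1 := Complex.I_mul_I
  fin_cases k <;> simp [zz, ev, qv, add_mul, hI] <;> ring

/-- pairs of functions to `Bool` and functions to `Fin 4` -/
noncomputable def pairEquiv (n : ℕ) : (Fin n → Fin 4) ≃ (Fin n → Bool) × (Fin n → Bool) :=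
  (Equiv.arrowCongr (Equiv.refl _) (Equiv.ofBijective ev ev_bij)).trans
    (Equiv.arrowProdEquivProdArrow _ _ _)

lemma sum_pair {n : ℕ} {R : Type*} [AddCommMonoid R]
    (G : (Fin n → Bool) → (Fin n → Bool) → R) :
    ∑ x, ∑ y, G x y = ∑ k : Fin n → Fin 4, G (fun i => (ev (k i)).1) (fun i => (ev (k i)).2) := by
  rw [← Fintype.sum_prod_type' (f := G)]
  exact (Fintype.sum_equiv (pairEquiv n) _ _ (fun _ => rfl)).symm

/-- evaluation of the multi-affine polynomial -/
noncomputable def FF {n : ℕ} (c : Finset (Fin n) → ℂ) (x y : Fin n → Bool) : ℂ :=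
  ∑ S, c S * ∏ i ∈ S, zz (x i) (y i)

/-- the coefficients after the rotation and scaling by `1 + i` -/
noncomputable def cc {n : ℕ} (c : Finset (Fin n) → ℂ) : Finset (Fin n) → ℂ :=
  fun S => c S * (1 + I) ^ S.card

lemma norm_one_add_I_sq : ‖(1 + I : ℂ)‖ ^ 2 = 2 := by
  rw [← Complex.normSq_eq_norm_sq, Complex.normSq_apply]; simp; norm_num

lemma norm_cc {n : ℕ} (c : Finset (Fin n) → ℂ) (S : Finset (Fin n)) :
    ‖cc c S‖ ^ 2 = 2 ^ S.card * ‖c S‖ ^ 2 := by
  rw [cc, norm_mul, norm_pow, mul_pow, ← pow_mul, mul_comm S.card 2, pow_mul, norm_one_add_I_sq]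
  ring

lemma FF_ev {n : ℕ} (c : Finset (Fin n) → ℂ) (k : Fin n → Fin 4) :
    FF c (fun i => (ev (k i)).1) (fun i => (ev (k i)).2) = ∑ S, cc c S * ∏ i ∈ S, qv (k i) := by
  unfold FF cc
  apply Finset.sum_congr rfl
  intro S _
  simp only [zz_ev]
  rw [Finset.prod_mul_distrib, Finset.prod_const]; ring

/-- the derivative with respect to `z_j` -/
noncomputable def dc {n : ℕ} (c : Finset (Fin n) → ℂ) (j : Fin n) : Finset (Fin n) → ℂ :=
  fun T => if j ∈ T then 0 else c (insert j T)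

lemma sum_mem_erase {n : ℕ} {R : Type*} [AddCommMonoid R] (j : Fin n) (G : Finset (Fin n) → R) :
    ∑ S with j ∈ S, G S = ∑ T with j ∉ T, G (insert j T) := by
  apply Finset.sum_nbij' (fun S => S.erase j) (fun T => insert j T)
  · intro S hS; simp
  · intro T hT; simp
  · intro S hS; rw [Finset.mem_filter] at hS; exact Finset.insert_erase hS.2
  · intro T hT; rw [Finset.mem_filter] at hT; exact Finset.erase_insert hT.2
  · intro S hS; rw [Finset.mem_filter] at hS; rw [Finset.insert_erase hS.2]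

/-- splitting off `z_j`: `F = A + z_j F_j`, both not depending on `z_j` -/
lemma FF_split {n : ℕ} (c : Finset (Fin n) → ℂ) (j : Fin n) (x y : Fin n → Bool) :
    FF c x y = (∑ T with j ∉ T, c T * ∏ i ∈ T, zz (x i) (y i)) + zz (x j) (y j) * FF (dc c j) x y := by
  unfold FF
  rw [← Finset.sum_filter_add_sum_filter_not Finset.univ (fun S => j ∈ S), add_comm]
  congr 1
  rw [sum_mem_erase, Finset.mul_sum,
    ← Finset.sum_filter_add_sum_filter_not Finset.univ (fun S => j ∈ S)]
  have h0 : ∑ S with j ∈ S, zz (x j) (y j) * (dc c j S * ∏ i ∈ S, zz (x i) (y i)) = 0 := by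
    apply Finset.sum_eq_zero
    intro S hS
    rw [Finset.mem_filter] at hS
    simp [dc, hS.2]
  rw [h0, zero_add]
  apply Finset.sum_congr rfl
  intro T hT
  rw [Finset.mem_filter] at hT
  rw [Finset.prod_insert hT.2, dc, if_neg hT.2]; ring

lemma prod_update {n : ℕ} (j : Fin n) (T : Finset (Fin n)) (hj : j ∉ T) (x y x' y' : Fin n → Bool)
    (hx : ∀ i, i ≠ j → x' i = x i) (hy : ∀ i, i ≠ j → y' i = y i) :
    ∏ i ∈ T, zz (x' i) (y' i) = ∏ i ∈ T, zz (x i) (y i) := by
  apply Finset.prod_congr rfl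
  intro i hi
  have : i ≠ j := fun h => hj (h ▸ hi)
  rw [hx i this, hy i this]

lemma FF_dc_update {n : ℕ} (c : Finset (Fin n) → ℂ) (j : Fin n) (x y x' y' : Fin n → Bool)
    (hx : ∀ i, i ≠ j → x' i = x i) (hy : ∀ i, i ≠ j → y' i = y i) :
    FF (dc c j) x' y' = FF (dc c j) x y := by
  unfold FF
  apply Finset.sum_congr rfl
  intro T _
  by_cases h : j ∈ T
  · simp [dc, h]
  · rw [prod_update j T h x y x' y' hx hy]

lemma FF_sub {n : ℕ} (c : Finset (Fin n) → ℂ) (j : Fin n) (x y x' y' : Fin n → Bool)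
    (hx : ∀ i, i ≠ j → x' i = x i) (hy : ∀ i, i ≠ j → y' i = y i) :
    FF c x y - FF c x' y' = (zz (x j) (y j) - zz (x' j) (y' j)) * FF (dc c j) x y := by
  rw [FF_split c j x y, FF_split c j x' y', FF_dc_update c j x y x' y' hx hy]
  have : ∑ T with j ∉ T, c T * ∏ i ∈ T, zz (x' i) (y' i)
      = ∑ T with j ∉ T, c T * ∏ i ∈ T, zz (x i) (y i) := by
    apply Finset.sum_congr rfl
    intro T hT
    rw [Finset.mem_filter] at hT
    rw [prod_update j T hT.2 x y x' y' hx hy]
  rw [this]; ring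

/-- the two half differences at a point -/
lemma halfdiff {n : ℕ} (c : Finset (Fin n) → ℂ) (j : Fin n) (x y : Fin n → Bool) :
    (((FF c x y).re - (FF c (Function.update x j (!x j)) y).re) / 2) ^ 2
      + (((FF c x y).re - (FF c x (Function.update y j (!y j))).re) / 2) ^ 2
      = ‖FF (dc c j) x y‖ ^ 2 := by
  have h1 := FF_sub c j x y (Function.update x j (!x j)) y
    (fun i hi => Function.update_of_ne hi _ _) (fun _ _ => rfl)
  have h2 := FF_sub c j x y x (Function.update y j (!y j))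
    (fun _ _ => rfl) (fun i hi => Function.update_of_ne hi _ _)
  rw [Function.update_self] at h1 h2
  rw [← Complex.sub_re, ← Complex.sub_re, h1, h2, ← Complex.normSq_eq_norm_sq,
    Complex.normSq_apply]
  cases x j <;> cases y j <;> simp [zz, Complex.mul_re] <;> ring

lemma avg_sq {n : ℕ} (c : Finset (Fin n) → ℂ) :
    (∑ x, ∑ y, ‖FF c x y‖ ^ 2) / 4 ^ n = ∑ S, 2 ^ S.card * ‖c S‖ ^ 2 := by
  rw [sum_pair]
  simp only [FF_ev]
  have := parseval (cc c)
  simp only [norm_cc] at this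
  exact this

/-- **the influences** -/
lemma influence {n : ℕ} (c : Finset (Fin n) → ℂ) (j : Fin n) :
    (∑ x, ∑ y, ((((FF c x y).re - (FF c (Function.update x j (!x j)) y).re) / 2) ^ 2
      + (((FF c x y).re - (FF c x (Function.update y j (!y j))).re) / 2) ^ 2)) / 4 ^ n
      = ∑ S with j ∈ S, 2 ^ (S.card - 1) * ‖c S‖ ^ 2 := by
  simp only [halfdiff]
  rw [avg_sq, sum_mem_erase, Finset.sum_filter]
  apply Finset.sum_congr rfl
  intro T _
  by_cases h : j ∈ T
  · simp [dc, h]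
  · simp [dc, h, Finset.card_insert_of_notMem h]

lemma sum_qv_pair2 (p q : Prop) [Decidable p] [Decidable q] :
    ∑ k : Fin 4, (if p then qv k else 1) * (if q then qv k else 1)
      = if (p ∨ q) then 0 else 4 := by
  by_cases hp : p <;> by_cases hq : q <;>
    simp [hp, hq, Fin.sum_univ_four, qv] <;> norm_num

lemma orth2 {n : ℕ} (S T : Finset (Fin n)) :
    Ex (fun x : Fin n → Fin 4 => (∏ i ∈ S, qv (x i)) * (∏ i ∈ T, qv (x i)))
      = if S = ∅ ∧ T = ∅ then 1 else 0 := by
  classical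
  have h1 : ∀ x : Fin n → Fin 4, (∏ i ∈ S, qv (x i)) * (∏ i ∈ T, qv (x i))
      = ∏ i, ((if i ∈ S then qv (x i) else 1) * (if i ∈ T then qv (x i) else 1)) := by
    intro x
    rw [Finset.prod_mul_distrib, Finset.prod_ite_mem, Finset.prod_ite_mem]
    simp
  unfold Ex
  simp only [h1]
  have h2 : ∑ x : Fin n → Fin 4, ∏ i, ((if i ∈ S then qv (x i) else 1) *
        (if i ∈ T then qv (x i) else 1))
      = ∏ i : Fin n, ∑ k : Fin 4, ((if i ∈ S then qv k else 1) * (if i ∈ T then qv k else 1)) := by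
    rw [Finset.prod_univ_sum]
    simp
  rw [h2]
  simp only [sum_qv_pair2]
  split_ifs with h
  · obtain ⟨rfl, rfl⟩ := h
    simp
  · have : ∃ i, i ∈ S ∨ i ∈ T := by
      by_contra hc
      push Not at hc
      apply h
      constructor
      · ext i; simp [(hc i).1]
      · ext i; simp [(hc i).2]
    obtain ⟨i, hi⟩ := this
    have h0 := Finset.prod_eq_zero (f := fun i : Fin n => if (i ∈ S ∨ i ∈ T) then (0:ℂ) else 4)
      (Finset.mem_univ i) (if_pos hi)
    rw [h0, zero_div]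

lemma Ex_sq {n : ℕ} (c : Finset (Fin n) → ℂ) :
    Ex (fun x : Fin n → Fin 4 => (∑ S, c S * ∏ i ∈ S, qv (x i))^2) = (c ∅)^2 := by
  have h1 : (fun x : Fin n → Fin 4 => (∑ S, c S * ∏ i ∈ S, qv (x i))^2)
      = (fun x => ∑ S, ∑ T, (c S * c T) *
          ((∏ i ∈ S, qv (x i)) * (∏ i ∈ T, qv (x i)))) := by
    funext x
    rw [pow_two, Finset.sum_mul_sum]
    apply Finset.sum_congr rfl
    intro S _
    apply Finset.sum_congr rfl
    intro T _
    ring
  rw [h1, Ex_sum, Finset.sum_eq_single ∅]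
  · rw [Ex_sum, Finset.sum_eq_single ∅]
    · rw [Ex_mul, orth2, if_pos ⟨rfl, rfl⟩]; ring
    · intro T _ hT
      rw [Ex_mul, orth2, if_neg (fun h => hT h.2), mul_zero]
    · intro hS; exact absurd (Finset.mem_univ _) hS
  · intro S _ hS
    rw [Ex_sum]
    apply Finset.sum_eq_zero
    intro T _
    rw [Ex_mul, orth2, if_neg (fun h => hS h.1), mul_zero]
  · intro hS; exact absurd (Finset.mem_univ _) hS

lemma Ex_mean {n : ℕ} (c : Finset (Fin n) → ℂ) :
    Ex (fun x : Fin n → Fin 4 => ∑ S, c S * ∏ i ∈ S, qv (x i)) = c ∅ := by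
  rw [Ex_sum, Finset.sum_eq_single ∅]
  · have := orth2 (n := n) ∅ ∅
    simp only [Finset.prod_empty, mul_one] at this
    rw [Ex_mul]
    simp only [Finset.prod_empty]
    rw [this]; simp
  · intro S _ hS
    have := orth2 (n := n) S ∅
    simp only [Finset.prod_empty, mul_one] at this
    rw [Ex_mul, this, if_neg (fun h => hS h.1), mul_zero]
  · intro hS; exact absurd (Finset.mem_univ _) hS

/-- **the variance** -/
lemma variance {n : ℕ} (c : Finset (Fin n) → ℂ) :
    (∑ x, ∑ y, (FF c x y).re ^ 2) / 4 ^ n - ((∑ x, ∑ y, (FF c x y).re) / 4 ^ n) ^ 2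
      = ∑ S with S.Nonempty, 2 ^ (S.card - 1) * ‖c S‖ ^ 2 := by
  have h1 : ∀ w : ℂ, w.re ^ 2 = (1/2) * ‖w‖ ^ 2 + (1/2) * (w ^ 2).re := by
    intro w
    rw [← Complex.normSq_eq_norm_sq, Complex.normSq_apply, pow_two w, Complex.mul_re]; ring
  have hc0 : cc c ∅ = c ∅ := by simp [cc]
  have e1 : (∑ x, ∑ y, (FF c x y).re ^ 2) / 4 ^ n
      = (1/2) * ∑ S, 2 ^ S.card * ‖c S‖ ^ 2 + (1/2) * ((c ∅) ^ 2).re := by
    rw [sum_pair (fun x y => (FF c x y).re ^ 2)]
    simp only [FF_ev]
    have := parseval (cc c)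
    simp only [norm_cc] at this
    have h3 := Ex_sq (cc c)
    rw [hc0] at h3
    rw [← this, ← h3, ← Ex_re, ← Ex_mul, ← Ex_mul, ← Ex_add]
    simp only [h1]
    rfl
  have e2 : (∑ x, ∑ y, (FF c x y).re) / 4 ^ n = (c ∅).re := by
    rw [sum_pair (fun x y => (FF c x y).re)]
    simp only [FF_ev]
    have h3 := Ex_mean (cc c)
    rw [hc0] at h3
    rw [← h3, ← Ex_re]
    rfl
  rw [e1, e2]
  have e3 : ∑ S : Finset (Fin n), 2 ^ S.card * ‖c S‖ ^ 2
      = ‖c ∅‖ ^ 2 + 2 * ∑ S with S.Nonempty, 2 ^ (S.card - 1) * ‖c S‖ ^ 2 := by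
    rw [← Finset.sum_filter_add_sum_filter_not Finset.univ (fun S => S.Nonempty), add_comm]
    congr 1
    · have : (Finset.univ.filter (fun S : Finset (Fin n) => ¬ S.Nonempty)) = {∅} := by
        ext S; simp [Finset.not_nonempty_iff_eq_empty]
      rw [this]; simp
    · rw [Finset.mul_sum]
      apply Finset.sum_congr rfl
      intro S hS
      rw [Finset.mem_filter] at hS
      obtain ⟨k, hk⟩ : ∃ k, S.card = k + 1 := ⟨S.card - 1, by
        have := Finset.card_pos.2 hS.2; omega⟩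
      rw [hk, Nat.add_sub_cancel, pow_succ]; ring
  rw [e3]
  have h4 := h1 (c ∅)
  linarith

end Pool.Agent.Lib_helper49.Pluri
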