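import Pool.Agent.Lib_helper49.Pluri.FourC

/-!
# The inequality (BQ) on the discrete torus `{1, -1, i, -i}^n`

For multi-affine `g, h` on `Q^n`, `Q = {1, -1, i, -i}`:
`|E g conj h| <= (E |h|^(9/7))^(7/9) (E |g|^4)^(1/4)`.
-/

set_option autoImplicit false

namespace Pool.Agent.Lib_helper49.Pluri

open Complex ComplexConjugate

/-- the four points -/
noncomputable def qv : Fin 4 → ℂ := ![1, -1, I, -I]

lemma qv_mem (k : Fin 4) : qv k ∈ ({1, -1, I, -I} : Set ℂ) := by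
  fin_cases k <;> simp [qv]

lemma norm_qv (k : Fin 4) : ‖qv k‖ = 1 := by
  fin_cases k <;> simp [qv]

/-- multi-affine functions on `Q^n` -/
def MA : (n : ℕ) → ((Fin n → Fin 4) → ℂ) → Prop
  | 0, _ => True
  | n+1, g => ∃ A B : (Fin n → Fin 4) → ℂ, MA n A ∧ MA n B ∧
      ∀ k u, g (Fin.cons k u) = A u + qv k * B u

lemma MA.lin {n : ℕ} : ∀ {g h : (Fin n → Fin 4) → ℂ} (_ : MA n g) (_ : MA n h) (a b : ℂ),
    MA n (fun x => a * g x + b * h x) := by
  induction n with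
  | zero => intro g h _ _ a b; trivial
  | succ n ih =>
    rintro g h ⟨A, B, hA, hB, hg⟩ ⟨C, D, hC, hD, hh⟩ a b
    refine ⟨_, _, ih hA hC a b, ih hB hD a b, ?_⟩
    intro k u
    show a * g _ + b * h _ = _
    rw [hg, hh]; ring

/-- expectation -/
noncomputable def Ex {n : ℕ} {R : Type*} [Field R] (F : (Fin n → Fin 4) → R) : R :=
  (∑ x, F x) / 4 ^ n

lemma sum_cons {n : ℕ} {R : Type*} [AddCommMonoid R] (F : (Fin (n+1) → Fin 4) → R) :
    ∑ x, F x = ∑ k : Fin 4, ∑ u : Fin n → Fin 4, F (Fin.cons k u) := by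
  rw [← Fintype.sum_prod_type' (f := fun (k : Fin 4) (u : Fin n → Fin 4) => F (Fin.cons k u))]
  exact (Fintype.sum_equiv (Fin.consEquiv (fun _ => Fin 4)) _ _ (fun _ => rfl)).symm

lemma Ex_succ {n : ℕ} {R : Type*} [Field R] (F : (Fin (n+1) → Fin 4) → R) :
    Ex F = (∑ k : Fin 4, Ex (fun u => F (Fin.cons k u))) / 4 := by
  unfold Ex
  rw [sum_cons, Finset.sum_div, Finset.sum_div]
  apply Finset.sum_congr rfl
  intro k _
  rw [pow_succ, div_div]

lemma Ex_nonneg {n : ℕ} {F : (Fin n → Fin 4) → ℝ} (h : ∀ x, 0 ≤ F x) : 0 ≤ Ex F :=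
  div_nonneg (Finset.sum_nonneg (fun x _ => h x)) (by positivity)

lemma Ex_mono {n : ℕ} {F G : (Fin n → Fin 4) → ℝ} (h : ∀ x, F x ≤ G x) : Ex F ≤ Ex G := by
  unfold Ex
  have : ∑ x, F x ≤ ∑ x, G x := Finset.sum_le_sum (fun x _ => h x)
  gcongr

lemma Ex_add {n : ℕ} {R : Type*} [Field R] (F G : (Fin n → Fin 4) → R) :
    Ex (fun x => F x + G x) = Ex F + Ex G := by
  unfold Ex; rw [Finset.sum_add_distrib, add_div]

lemma Ex_mul {n : ℕ} {R : Type*} [Field R] (a : R) (F : (Fin n → Fin 4) → R) :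
    Ex (fun x => a * F x) = a * Ex F := by
  unfold Ex; rw [← Finset.mul_sum, mul_div_assoc]

lemma Ex_re {n : ℕ} (F : (Fin n → Fin 4) → ℂ) : Ex (fun x => (F x).re) = (Ex F).re := by
  unfold Ex
  rw [show ((4:ℂ)^n) = (((4:ℝ)^n : ℝ) : ℂ) by push_cast; rfl, Complex.div_ofReal_re,
    Complex.re_sum]

lemma Ex_ofReal {n : ℕ} (F : (Fin n → Fin 4) → ℝ) :
    Ex (fun x => ((F x : ℝ) : ℂ)) = ((Ex F : ℝ) : ℂ) := by
  unfold Ex; push_cast; rfl

lemma norm_Ex_le {n : ℕ} (F : (Fin n → Fin 4) → ℂ) : ‖Ex F‖ ≤ Ex (fun x => ‖F x‖) := by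
  unfold Ex
  rw [norm_div, norm_pow, show ‖(4:ℂ)‖ = 4 by norm_num]
  have := norm_sum_le Finset.univ F
  gcongr

/-- the pointwise identity for `|l A + z conj l B|^4` -/
lemma pt4 (A B l z : ℂ) (hz : ‖z‖ = 1) :
    ‖l * A + z * conj l * B‖^4 =
      ‖l‖^4 * ((‖A‖^2+‖B‖^2)^2 + 2*‖conj A * B‖^2)
      + 4 * (z * l * (conj l)^3 * (((‖A‖^2+‖B‖^2 : ℝ) : ℂ) * (conj A * B))).re
      + 2 * (z^2 * (conj l)^4 * (conj A * B)^2).re := by
  have hzz : z * conj z = 1 := by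
    rw [Complex.mul_conj, Complex.normSq_eq_norm_sq, hz]; norm_num
  -- squared norms as complex numbers
  have key : ((‖l * A + z * conj l * B‖^2 : ℝ) : ℂ)
      = l * conj l * ((‖A‖^2+‖B‖^2 : ℝ) : ℂ) + z * (conj l)^2 * (conj A * B)
        + conj z * l^2 * (A * conj B) := by
    have e1 : ((‖l * A + z * conj l * B‖^2 : ℝ) : ℂ)
        = (l * A + z * conj l * B) * conj (l * A + z * conj l * B) := by
      rw [Complex.mul_conj, Complex.normSq_eq_norm_sq]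
    have e2 : ((‖A‖^2+‖B‖^2 : ℝ) : ℂ) = A * conj A + B * conj B := by
      rw [Complex.mul_conj, Complex.mul_conj, Complex.normSq_eq_norm_sq,
        Complex.normSq_eq_norm_sq]; push_cast; rfl
    rw [e1, e2]
    simp only [map_add, map_mul, Complex.conj_conj]
    linear_combination (l * conj l * B * conj B) * hzz
  have key2 : ‖l * A + z * conj l * B‖^2
      = ‖l‖^2 * (‖A‖^2+‖B‖^2) + 2 * (z * (conj l)^2 * (conj A * B)).re := by
    have h := congrArg Complex.re key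
    rw [Complex.ofReal_re] at h
    rw [h]
    have e3 : conj z * l^2 * (A * conj B) = conj (z * (conj l)^2 * (conj A * B)) := by
      simp only [map_mul, map_pow, Complex.conj_conj]
    have e4 : l * conj l = ((‖l‖^2 : ℝ) : ℂ) := by
      rw [Complex.mul_conj, Complex.normSq_eq_norm_sq]
    rw [e3, e4, Complex.add_re, Complex.add_re, Complex.conj_re, ← Complex.ofReal_mul,
      Complex.ofReal_re]
    ring
  have key3 : ‖l * A + z * conj l * B‖^4
      = (‖l‖^2 * (‖A‖^2+‖B‖^2) + 2 * (z * (conj l)^2 * (conj A * B)).re)^2 := by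
    rw [← key2]; ring
  rw [key3]
  have e5 : (z * l * (conj l)^3 * (((‖A‖^2+‖B‖^2 : ℝ) : ℂ) * (conj A * B))).re
      = ‖l‖^2 * (‖A‖^2+‖B‖^2) * (z * (conj l)^2 * (conj A * B)).re := by
    have : z * l * (conj l)^3 * (((‖A‖^2+‖B‖^2 : ℝ) : ℂ) * (conj A * B))
        = ((‖l‖^2 * (‖A‖^2+‖B‖^2) : ℝ) : ℂ) * (z * (conj l)^2 * (conj A * B)) := by
      have e4 : ((‖l‖^2 : ℝ) : ℂ) = l * conj l := by
        rw [Complex.mul_conj, Complex.normSq_eq_norm_sq]
      rw [Complex.ofReal_mul, e4]; ring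
    rw [this, Complex.re_ofReal_mul]
  have e6 : (z^2 * (conj l)^4 * (conj A * B)^2).re
      = 2 * ((z * (conj l)^2 * (conj A * B)).re)^2 - ‖l‖^4 * ‖conj A * B‖^2 := by
    have h1 : z^2 * (conj l)^4 * (conj A * B)^2 = (z * (conj l)^2 * (conj A * B))^2 := by ring
    have h2 : ∀ w : ℂ, (w^2).re = 2 * w.re^2 - ‖w‖^2 := by
      intro w
      rw [← Complex.normSq_eq_norm_sq, Complex.normSq_apply, pow_two w, Complex.mul_re]; ring
    rw [h1, h2]
    have h3 : ‖z * (conj l)^2 * (conj A * B)‖^2 = ‖l‖^4 * ‖conj A * B‖^2 := by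
      rw [norm_mul, norm_mul, hz, norm_pow, Complex.norm_conj]; ring
    rw [h3]
  rw [e5, e6]
  ring

/-- the four moment conditions of the weights -/
lemma moments (b : ℂ) (e : ℝ) (A B C D : ℂ) :
    ∑ k : Fin 4, (lam b e (qv k) * A + qv k * conj (lam b e (qv k)) * B) * conj (C + qv k * D)
      = ∑ k : Fin 4, (A + qv k * B) * conj (C + qv k * D) := by
  have hI : I^2 = -1 := Complex.I_sq
  simp only [Fin.sum_univ_four, qv, lam, Matrix.cons_val_zero, Matrix.cons_val_one,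
    Matrix.cons_val, map_add, map_sub, map_mul, map_one, map_neg, map_pow, Complex.conj_conj,
    Complex.conj_I, Complex.conj_ofReal]
  linear_combination (2 * e * A * conj C - 2 * conj b * A * conj D - 2 * b * B * conj C
    + 2 * e * B * conj D * (1 - I^2)) * hI

/-- `M = E (S^2 + 2 |W|^2)` -/
noncomputable def MM {n : ℕ} (A B : (Fin n → Fin 4) → ℂ) : ℝ :=
  Ex (fun u => (‖A u‖^2+‖B u‖^2)^2 + 2*‖conj (A u) * B u‖^2)

lemma MM_pt_nonneg (A B : ℂ) : 0 ≤ (‖A‖^2+‖B‖^2)^2 + 2*‖conj A * B‖^2 := by positivity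

lemma MM_nonneg {n : ℕ} (A B : (Fin n → Fin 4) → ℂ) : 0 ≤ MM A B :=
  Ex_nonneg (fun u => MM_pt_nonneg (A u) (B u))

/-- `E |l A + z conj l B|^4` -/
lemma Ex_pt4 {n : ℕ} (A B : (Fin n → Fin 4) → ℂ) (l z : ℂ) (hz : ‖z‖ = 1) :
    Ex (fun u => ‖l * A u + z * conj l * B u‖^4)
      = ‖l‖^4 * MM A B
        + 4 * (z * l * (conj l)^3
            * Ex (fun u => ((‖A u‖^2+‖B u‖^2 : ℝ) : ℂ) * (conj (A u) * B u))).re
        + 2 * (z^2 * (conj l)^4 * Ex (fun u => (conj (A u) * B u)^2)).re := by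
  have h : (fun u => ‖l * A u + z * conj l * B u‖^4) = (fun u =>
      (‖l‖^4 * ((‖A u‖^2+‖B u‖^2)^2 + 2*‖conj (A u) * B u‖^2)
      + 4 * (z * l * (conj l)^3 * (((‖A u‖^2+‖B u‖^2 : ℝ) : ℂ) * (conj (A u) * B u))).re)
      + 2 * (z^2 * (conj l)^4 * (conj (A u) * B u)^2).re) := by
    funext u; rw [pt4 _ _ _ _ hz]
  rw [h, Ex_add, Ex_add, Ex_mul, Ex_mul, Ex_mul, Ex_re, Ex_re, Ex_mul, Ex_mul]
  rfl

lemma Ex_four {n : ℕ} (A B : (Fin n → Fin 4) → ℂ) :
    (∑ k : Fin 4, Ex (fun u => ‖A u + qv k * B u‖^4)) / 4 = MM A B := by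
  have h : ∀ k : Fin 4, Ex (fun u => ‖A u + qv k * B u‖^4) =
      MM A B + 4 * (qv k * Ex (fun u => ((‖A u‖^2+‖B u‖^2 : ℝ) : ℂ) * (conj (A u) * B u))).re
        + 2 * ((qv k)^2 * Ex (fun u => (conj (A u) * B u)^2)).re := by
    intro k
    have := Ex_pt4 A B 1 (qv k) (norm_qv k)
    simpa using this
  rw [Fin.sum_univ_four, h, h, h, h]
  simp only [qv, Matrix.cons_val_zero, Matrix.cons_val_one,
    Matrix.cons_val, Complex.I_sq, neg_mul, one_mul, neg_sq, one_pow, Complex.neg_re]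
  ring

lemma W_le (A B : ℂ) : ‖conj A * B‖ ≤ (‖A‖^2+‖B‖^2)/2 := by
  rw [norm_mul, Complex.norm_conj]
  nlinarith [sq_nonneg (‖A‖ - ‖B‖)]

lemma g1_le {n : ℕ} (A B : (Fin n → Fin 4) → ℂ) :
    ‖Ex (fun u => ((‖A u‖^2+‖B u‖^2 : ℝ) : ℂ) * (conj (A u) * B u))‖ ≤ MM A B / 3 := by
  refine (norm_Ex_le _).trans ?_
  have h : MM A B / 3 = (1/3) * MM A B := by ring
  rw [h, MM, ← Ex_mul]
  apply Ex_mono
  intro u
  rw [norm_mul, Complex.norm_real, Real.norm_eq_abs, abs_of_nonneg (by positivity)]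
  have h1 := W_le (A u) (B u)
  have h0 := norm_nonneg (conj (A u) * B u)
  set S := ‖A u‖^2+‖B u‖^2
  set W := ‖conj (A u) * B u‖
  have hS : 0 ≤ S := by positivity
  nlinarith [mul_nonneg (sub_nonneg.2 h1) hS, mul_nonneg (sub_nonneg.2 h1) h0]

lemma g2_le {n : ℕ} (A B : (Fin n → Fin 4) → ℂ) :
    ‖Ex (fun u => (conj (A u) * B u)^2)‖ ≤ MM A B / 6 := by
  refine (norm_Ex_le _).trans ?_
  have h : MM A B / 6 = (1/6) * MM A B := by ring
  rw [h, MM, ← Ex_mul]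
  apply Ex_mono
  intro u
  rw [norm_pow]
  have h1 := W_le (A u) (B u)
  have h0 := norm_nonneg (conj (A u) * B u)
  set S := ‖A u‖^2+‖B u‖^2
  set W := ‖conj (A u) * B u‖
  have hS : 0 ≤ S := by positivity
  nlinarith [mul_nonneg (sub_nonneg.2 h1) hS, mul_nonneg (sub_nonneg.2 h1) h0]

/-- the four-point inequality for `E |V1 A + V2 B|^4` -/
lemma four_avg {n : ℕ} (A B : (Fin n → Fin 4) → ℂ) : ∃ (b : ℂ) (e : ℝ),
    ((∑ k : Fin 4, (Ex (fun u => ‖lam b e (qv k) * A u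
        + qv k * conj (lam b e (qv k)) * B u‖^4)) ^ (9/8 : ℝ)) / 4) ≤ (MM A B) ^ (9/8 : ℝ) := by
  rcases (MM_nonneg A B).eq_or_lt with h0 | hpos
  · -- degenerate case
    refine ⟨0, 0, ?_⟩
    have hA : ∀ k : Fin 4, Ex (fun u => ‖lam 0 0 (qv k) * A u
        + qv k * conj (lam 0 0 (qv k)) * B u‖^4) = 0 := by
      intro k
      have h1 := g1_le A B
      have h2 := g2_le A B
      rw [← h0, zero_div] at h1 h2
      have h1' := norm_le_zero_iff.1 h1
      have h2' := norm_le_zero_iff.1 h2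
      rw [Ex_pt4 A B _ _ (norm_qv k), ← h0, h1', h2']
      simp
    simp only [hA, ← h0]
    rw [Real.zero_rpow (by norm_num)]
    simp
  · set M := MM A B with hM
    set al := Ex (fun u => ((‖A u‖^2+‖B u‖^2 : ℝ) : ℂ) * (conj (A u) * B u)) with hal
    set be := Ex (fun u => (conj (A u) * B u)^2) with hbe
    set g1 : ℂ := 2 * al / M with hg1
    set g2 : ℂ := be / M with hg2
    have hMc : (M : ℂ) ≠ 0 := by exact_mod_cast hpos.ne'
    have n1 : ‖g1‖ ≤ 2/3 := by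
      rw [hg1, norm_div, norm_mul, Complex.norm_real, Real.norm_eq_abs, abs_of_pos hpos,
        div_le_iff₀ hpos]
      have := g1_le A B
      rw [show ‖(2:ℂ)‖ = 2 by norm_num]
      linarith
    have n2 : ‖g2‖ ≤ 1/6 := by
      rw [hg2, norm_div, Complex.norm_real, Real.norm_eq_abs, abs_of_pos hpos,
        div_le_iff₀ hpos]
      have := g2_le A B
      linarith
    have hE : ∀ (b : ℂ) (e : ℝ) (k : Fin 4), Ex (fun u => ‖lam b e (qv k) * A u
        + qv k * conj (lam b e (qv k)) * B u‖^4) = M * XX g1 g2 b e (qv k) := by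
      intro b e k
      rw [Ex_pt4 A B _ _ (norm_qv k), XX]
      have e1 : (M : ℂ) * (g1 * qv k * lam b e (qv k) * (conj (lam b e (qv k)))^3)
          = 2 * (qv k * lam b e (qv k) * (conj (lam b e (qv k)))^3 * al) := by
        rw [hg1]; field_simp
      have e2 : (M : ℂ) * (g2 * (qv k)^2 * (conj (lam b e (qv k)))^4)
          = (qv k)^2 * (conj (lam b e (qv k)))^4 * be := by
        rw [hg2]; field_simp
      have f1 := congrArg Complex.re e1
      have f2 := congrArg Complex.re e2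
      rw [Complex.re_ofReal_mul] at f1 f2
      have f3 : (2 * (qv k * lam b e (qv k) * (conj (lam b e (qv k)))^3 * al)).re
          = 2 * (qv k * lam b e (qv k) * (conj (lam b e (qv k)))^3 * al).re := by
        rw [Complex.mul_re]; simp
      rw [f3] at f1
      rw [← f2]
      linear_combination (-2) * f1
    refine ⟨g1/6, -(2*g2.re/13), ?_⟩
    have hX : ∀ k : Fin 4, 0 ≤ XX g1 g2 (g1/6) (-(2*g2.re/13)) (qv k) := by
      intro k
      have h1 := hE (g1/6) (-(2*g2.re/13)) k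
      have h2 : 0 ≤ Ex (fun u => ‖lam (g1/6) (-(2*g2.re/13)) (qv k) * A u
        + qv k * conj (lam (g1/6) (-(2*g2.re/13)) (qv k)) * B u‖^4) :=
        Ex_nonneg (fun u => by positivity)
      rw [h1] at h2
      exact nonneg_of_mul_nonneg_right h2 hpos
    have key := four_rpow g1 g2 n1 n2 (by
      rintro z hz
      have : ∃ k : Fin 4, z = qv k := by
        rcases hz with rfl | rfl | rfl | hz
        · exact ⟨0, by simp [qv]⟩
        · exact ⟨1, by simp [qv]⟩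
        · exact ⟨2, by simp [qv]⟩
        · rw [Set.mem_singleton_iff] at hz
          exact ⟨3, by simp [qv, hz]⟩
      obtain ⟨k, rfl⟩ := this
      exact hX k)
    have h4 : ∑ k : Fin 4, (Ex (fun u => ‖lam (g1/6) (-(2*g2.re/13)) (qv k) * A u
        + qv k * conj (lam (g1/6) (-(2*g2.re/13)) (qv k)) * B u‖^4)) ^ (9/8 : ℝ)
        = M ^ (9/8 : ℝ) * ∑ k : Fin 4, (XX g1 g2 (g1/6) (-(2*g2.re/13)) (qv k)) ^ (9/8 : ℝ) := by
      rw [Finset.mul_sum]
      apply Finset.sum_congr rfl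
      intro k _
      rw [hE, Real.mul_rpow hpos.le (hX k)]
    rw [h4]
    have h5 : ∑ k : Fin 4, (XX g1 g2 (g1/6) (-(2*g2.re/13)) (qv k)) ^ (9/8 : ℝ) ≤ 4 := by
      rw [Fin.sum_univ_four]
      simpa [qv] using key
    have h6 : 0 ≤ M ^ (9/8 : ℝ) := Real.rpow_nonneg hpos.le _
    calc (M ^ (9/8 : ℝ) * ∑ k : Fin 4, (XX g1 g2 (g1/6) (-(2*g2.re/13)) (qv k)) ^ (9/8 : ℝ)) / 4
        ≤ M ^ (9/8 : ℝ) * 4 / 4 := by gcongr
      _ = M ^ (9/8 : ℝ) := by ring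

/-- Hoelder for four terms -/
lemma holder4 (H Y : Fin 4 → ℝ) (hH : ∀ k, 0 ≤ H k) (hY : ∀ k, 0 ≤ Y k) :
    (∑ k, (H k) ^ (7/9 : ℝ) * (Y k) ^ (1/4 : ℝ)) / 4
      ≤ ((∑ k, H k) / 4) ^ (7/9 : ℝ) * ((∑ k, (Y k) ^ (9/8 : ℝ)) / 4) ^ (2/9 : ℝ) := by
  have hpq : Real.HolderConjugate (9/7) (9/2) := by
    rw [Real.holderConjugate_iff]; norm_num
  have h1 := Real.inner_le_Lp_mul_Lq_of_nonneg Finset.univ hpq
    (f := fun k => (H k) ^ (7/9 : ℝ)) (g := fun k => (Y k) ^ (1/4 : ℝ))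
    (fun k _ => Real.rpow_nonneg (hH k) _) (fun k _ => Real.rpow_nonneg (hY k) _)
  have e1 : ∀ k, ((H k) ^ (7/9 : ℝ)) ^ (9/7 : ℝ) = H k := by
    intro k; rw [← Real.rpow_mul (hH k)]; norm_num
  have e2 : ∀ k, ((Y k) ^ (1/4 : ℝ)) ^ (9/2 : ℝ) = (Y k) ^ (9/8 : ℝ) := by
    intro k; rw [← Real.rpow_mul (hY k)]; norm_num
  simp only [e1, e2] at h1
  have hs1 : 0 ≤ ∑ k, H k := Finset.sum_nonneg (fun k _ => hH k)
  have hs2 : 0 ≤ ∑ k, (Y k) ^ (9/8 : ℝ) :=
    Finset.sum_nonneg (fun k _ => Real.rpow_nonneg (hY k) _)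
  rw [Real.div_rpow hs1 (by norm_num), Real.div_rpow hs2 (by norm_num), div_mul_div_comm,
    ← Real.rpow_add (by norm_num)]
  rw [show (7/9 + 2/9 : ℝ) = 1 by norm_num, Real.rpow_one]
  have e3 : (1 / (9/7 : ℝ)) = 7/9 := by norm_num
  have e4 : (1 / (9/2 : ℝ)) = 2/9 := by norm_num
  rw [e3, e4] at h1
  gcongr

/-- **(BQ)** -/
theorem bq : ∀ (n : ℕ) (g h : (Fin n → Fin 4) → ℂ), MA n g → MA n h →
    ‖Ex (fun x => g x * conj (h x))‖
      ≤ (Ex (fun x => ‖h x‖ ^ (9/7 : ℝ))) ^ (7/9 : ℝ) * (Ex (fun x => ‖g x‖ ^ 4)) ^ (1/4 : ℝ) := by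
  intro n
  induction n with
  | zero =>
    intro g h _ _
    have e0 : ∀ (R : Type) [Field R] (F : (Fin 0 → Fin 4) → R), Ex F = F default := by
      intro R _ F
      unfold Ex
      rw [Fintype.sum_unique, pow_zero, div_one]
      exact congrArg F (Subsingleton.elim _ _)
    rw [e0, e0, e0, norm_mul, Complex.norm_conj, ← Real.rpow_mul (norm_nonneg _),
      ← Real.rpow_natCast, ← Real.rpow_mul (norm_nonneg _)]
    norm_num
    rw [mul_comm]
  | succ n ih =>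
    rintro g h ⟨A, B, hA, hB, hg⟩ ⟨C, D, hC, hD, hh⟩
    obtain ⟨b, e, hbe⟩ := four_avg A B
    set a : Fin 4 → (Fin n → Fin 4) → ℂ := fun k u =>
      lam b e (qv k) * A u + qv k * conj (lam b e (qv k)) * B u with ha
    have hMAa : ∀ k, MA n (a k) := fun k => hA.lin hB _ _
    have hMAh : ∀ k, MA n (fun u => C u + qv k * D u) := by
      intro k
      have := hC.lin hD 1 (qv k)
      simpa using this
    have e1 : Ex (fun x => g x * conj (h x))
        = (∑ k : Fin 4, Ex (fun u => a k u * conj (C u + qv k * D u))) / 4 := by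
      rw [Ex_succ]
      congr 1
      simp only [hg, hh]
      unfold Ex
      rw [← Finset.sum_div, ← Finset.sum_div, Finset.sum_comm]
      congr 1
      rw [Finset.sum_comm (s := Finset.univ (α := Fin 4))]
      apply Finset.sum_congr rfl
      intro u _
      exact (moments b e (A u) (B u) (C u) (D u)).symm
    have e2 : Ex (fun x => ‖h x‖ ^ (9/7 : ℝ))
        = (∑ k : Fin 4, Ex (fun u => ‖C u + qv k * D u‖ ^ (9/7 : ℝ))) / 4 := by
      rw [Ex_succ]; simp only [hh]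
    have e3 : Ex (fun x => ‖g x‖ ^ 4) = MM A B := by
      rw [Ex_succ]; simp only [hg]; exact Ex_four A B
    rw [e1, e2, e3]
    set H : Fin 4 → ℝ := fun k => Ex (fun u => ‖C u + qv k * D u‖ ^ (9/7 : ℝ)) with hHdef
    set Y : Fin 4 → ℝ := fun k => Ex (fun u => ‖a k u‖ ^ 4) with hYdef
    have hH : ∀ k, 0 ≤ H k := fun k => Ex_nonneg (fun u => Real.rpow_nonneg (norm_nonneg _) _)
    have hY : ∀ k, 0 ≤ Y k := fun k => Ex_nonneg (fun u => by positivity)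
    have s1 : ‖(∑ k : Fin 4, Ex (fun u => a k u * conj (C u + qv k * D u))) / 4‖
        ≤ (∑ k, (H k) ^ (7/9 : ℝ) * (Y k) ^ (1/4 : ℝ)) / 4 := by
      rw [norm_div, show ‖(4:ℂ)‖ = 4 by norm_num]
      have : ‖∑ k : Fin 4, Ex (fun u => a k u * conj (C u + qv k * D u))‖
          ≤ ∑ k, (H k) ^ (7/9 : ℝ) * (Y k) ^ (1/4 : ℝ) :=
        (norm_sum_le _ _).trans (Finset.sum_le_sum (fun k _ => ih _ _ (hMAa k) (hMAh k)))
      gcongr
    have s2 := holder4 H Y hH hY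
    have s3 : ((∑ k, (Y k) ^ (9/8 : ℝ)) / 4) ^ (2/9 : ℝ) ≤ (MM A B) ^ (1/4 : ℝ) := by
      have h0 : 0 ≤ (∑ k, (Y k) ^ (9/8 : ℝ)) / 4 :=
        div_nonneg (Finset.sum_nonneg (fun k _ => Real.rpow_nonneg (hY k) _)) (by norm_num)
      calc ((∑ k, (Y k) ^ (9/8 : ℝ)) / 4) ^ (2/9 : ℝ) ≤ ((MM A B) ^ (9/8 : ℝ)) ^ (2/9 : ℝ) :=
            Real.rpow_le_rpow h0 hbe (by norm_num)
        _ = (MM A B) ^ (1/4 : ℝ) := by
            rw [← Real.rpow_mul (MM_nonneg A B)]; norm_num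
    have s4 : 0 ≤ ((∑ k, H k) / 4) ^ (7/9 : ℝ) :=
      Real.rpow_nonneg (div_nonneg (Finset.sum_nonneg (fun k _ => hH k)) (by norm_num)) _
    exact s1.trans (s2.trans (mul_le_mul_of_nonneg_left s3 s4))

end Pool.Agent.Lib_helper49.Pluri
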