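import Mathlib

/-!
# Two abstract endings for the group version
-/

set_option autoImplicit false

namespace Pool.Agent.Lib_helper49.Pluri

open Finset

/-- average over a finite type -/
noncomputable def avg {E : Type*} [Fintype E] (f : E → ℝ) : ℝ := (∑ e, f e) / (Fintype.card E : ℝ)

lemma avg_nonneg {E : Type*} [Fintype E] {f : E → ℝ} (h : ∀ e, 0 ≤ f e) : 0 ≤ avg f :=
  div_nonneg (Finset.sum_nonneg (fun e _ => h e)) (Nat.cast_nonneg _)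

lemma avg_mono {E : Type*} [Fintype E] {f g : E → ℝ} (h : ∀ e, f e ≤ g e) : avg f ≤ avg g := by
  unfold avg
  have : ∑ e, f e ≤ ∑ e, g e := Finset.sum_le_sum (fun e _ => h e)
  gcongr

lemma avg_mul {E : Type*} [Fintype E] (c : ℝ) (f : E → ℝ) : avg (fun e => c * f e) = c * avg f := by
  unfold avg; rw [← Finset.mul_sum, mul_div_assoc]

/-- Hoelder: `avg (a^(28/37) b^(9/37)) <= (avg a)^(28/37) (avg b)^(9/37)` -/
lemma holder37 {E : Type*} [Fintype E] [Nonempty E] (a b : E → ℝ) (ha : ∀ e, 0 ≤ a e)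
    (hb : ∀ e, 0 ≤ b e) :
    avg (fun e => a e ^ (28/37 : ℝ) * b e ^ (9/37 : ℝ))
      ≤ (avg a) ^ (28/37 : ℝ) * (avg b) ^ (9/37 : ℝ) := by
  have hpq : Real.HolderConjugate (37/28) (37/9) := by
    rw [Real.holderConjugate_iff]; norm_num
  have h1 := Real.inner_le_Lp_mul_Lq_of_nonneg (Finset.univ : Finset E) hpq
    (f := fun k => (a k) ^ (28/37 : ℝ)) (g := fun k => (b k) ^ (9/37 : ℝ))
    (fun k _ => Real.rpow_nonneg (ha k) _) (fun k _ => Real.rpow_nonneg (hb k) _)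
  have e1 : ∀ k, ((a k) ^ (28/37 : ℝ)) ^ (37/28 : ℝ) = a k := by
    intro k; rw [← Real.rpow_mul (ha k)]; norm_num
  have e2 : ∀ k, ((b k) ^ (9/37 : ℝ)) ^ (37/9 : ℝ) = b k := by
    intro k; rw [← Real.rpow_mul (hb k)]; norm_num
  simp only [e1, e2] at h1
  have hs1 : 0 ≤ ∑ k, a k := Finset.sum_nonneg (fun k _ => ha k)
  have hs2 : 0 ≤ ∑ k, b k := Finset.sum_nonneg (fun k _ => hb k)
  have hc : (0:ℝ) < (Fintype.card E : ℝ) := by exact_mod_cast Fintype.card_pos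
  unfold avg
  rw [Real.div_rpow hs1 hc.le, Real.div_rpow hs2 hc.le, div_mul_div_comm,
    ← Real.rpow_add hc]
  rw [show (28/37 + 9/37 : ℝ) = 1 by norm_num, Real.rpow_one]
  have e3 : (1 / (37/28 : ℝ)) = 28/37 := by norm_num
  have e4 : (1 / (37/9 : ℝ)) = 9/37 := by norm_num
  rw [e3, e4] at h1
  gcongr

theorem junta36 {E : Type*} [Fintype E] [Nonempty E] (X a b : E → ℝ) (hX0 : ∀ e, 0 ≤ X e)
    (ha0 : ∀ e, 0 ≤ a e) (hb0 : ∀ e, 0 ≤ b e) (k : ℕ) (P R : ℝ)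
    (h : ∀ e, X e ≤ a e ^ (7/9 : ℝ) * b e ^ (1/4 : ℝ)) (ha : avg a ≤ P) (hb : avg b ≤ R)
    (hX : ∀ e, X e ≤ 2 ^ k * avg X) : (avg X) ^ 36 ≤ 2 ^ k * P ^ 28 * R ^ 9 := by
  have hA0 : 0 ≤ avg X := avg_nonneg hX0
  have ha' : 0 ≤ avg a := avg_nonneg ha0
  have hb' : 0 ≤ avg b := avg_nonneg hb0
  have hP : 0 ≤ P := ha'.trans ha
  have hR : 0 ≤ R := hb'.trans hb
  rcases hA0.eq_or_lt with h0 | hpos
  · rw [← h0, zero_pow (by norm_num)]; positivity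
  -- pointwise
  have h1 : ∀ e, X e ≤ (2 ^ k * avg X) ^ (1/37 : ℝ) * (a e ^ (28/37 : ℝ) * b e ^ (9/37 : ℝ)) := by
    intro e
    have e1 : X e = X e ^ (1/37 : ℝ) * X e ^ (36/37 : ℝ) := by
      rw [← Real.rpow_add_of_nonneg (hX0 e) (by norm_num) (by norm_num)]
      rw [show (1/37 + 36/37 : ℝ) = 1 by norm_num, Real.rpow_one]
    have e2 : X e ^ (36/37 : ℝ) ≤ a e ^ (28/37 : ℝ) * b e ^ (9/37 : ℝ) := by
      calc X e ^ (36/37 : ℝ) ≤ (a e ^ (7/9 : ℝ) * b e ^ (1/4 : ℝ)) ^ (36/37 : ℝ) :=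
            Real.rpow_le_rpow (hX0 e) (h e) (by norm_num)
        _ = _ := by
            rw [Real.mul_rpow (Real.rpow_nonneg (ha0 e) _) (Real.rpow_nonneg (hb0 e) _),
              ← Real.rpow_mul (ha0 e), ← Real.rpow_mul (hb0 e)]
            norm_num
    have e3 : X e ^ (1/37 : ℝ) ≤ (2 ^ k * avg X) ^ (1/37 : ℝ) :=
      Real.rpow_le_rpow (hX0 e) (hX e) (by norm_num)
    calc X e = X e ^ (1/37 : ℝ) * X e ^ (36/37 : ℝ) := e1
      _ ≤ _ := mul_le_mul e3 e2 (Real.rpow_nonneg (hX0 e) _) (Real.rpow_nonneg (by positivity) _)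
  have h2 := avg_mono h1
  rw [avg_mul] at h2
  have h3 : avg X ≤ (2 ^ k * avg X) ^ (1/37 : ℝ) * (P ^ (28/37 : ℝ) * R ^ (9/37 : ℝ)) := by
    refine h2.trans ?_
    apply mul_le_mul_of_nonneg_left _ (Real.rpow_nonneg (by positivity) _)
    refine (holder37 a b ha0 hb0).trans ?_
    exact mul_le_mul (Real.rpow_le_rpow ha' ha (by norm_num))
      (Real.rpow_le_rpow hb' hb (by norm_num)) (Real.rpow_nonneg hb' _) (Real.rpow_nonneg hP _)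
  -- 37th power
  have h4 := pow_le_pow_left₀ hA0 h3 37
  have q1 : ((2 ^ k * avg X) ^ (1/37 : ℝ)) ^ 37 = 2 ^ k * avg X := by
    rw [← Real.rpow_natCast, ← Real.rpow_mul (by positivity)]; norm_num
  have q2 : (P ^ (28/37 : ℝ)) ^ 37 = P ^ 28 := by
    rw [← Real.rpow_natCast, ← Real.rpow_mul hP]
    rw [show (28/37 * ((37:ℕ):ℝ) : ℝ) = ((28:ℕ):ℝ) by norm_num, Real.rpow_natCast]
  have q3 : (R ^ (9/37 : ℝ)) ^ 37 = R ^ 9 := by
    rw [← Real.rpow_natCast, ← Real.rpow_mul hR]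
    rw [show (9/37 * ((37:ℕ):ℝ) : ℝ) = ((9:ℕ):ℝ) by norm_num, Real.rpow_natCast]
  rw [mul_pow, mul_pow, q1, q2, q3] at h4
  have h5 : avg X ^ 36 * avg X ≤ (2 ^ k * P ^ 28 * R ^ 9) * avg X := by
    calc avg X ^ 36 * avg X = avg X ^ 37 := by ring
      _ ≤ 2 ^ k * avg X * (P ^ 28 * R ^ 9) := h4
      _ = _ := by ring
  exact le_of_mul_le_mul_right h5 hpos

theorem end20 {th X1 EX P R : ℝ} (hth : 0 ≤ th) (hX1 : 0 ≤ X1) (hP0 : 0 ≤ P) (hR0 : 0 ≤ R)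
    (k : ℕ) (h36 : EX ^ 36 ≤ 2 ^ k * P ^ 28 * R ^ 9) (hR : R ≤ th)
    (hP : P ≤ X1 ^ (5/7 : ℝ) * th ^ (2/7 : ℝ)) (hEX : (1 / 2 ^ 11) ^ k * th ≤ EX) :
    th ^ (19/20 : ℝ) ≤ 2 ^ (20 * k) * X1 := by
  rcases hth.eq_or_lt with h0 | hpos
  · rw [← h0, Real.zero_rpow (by norm_num)]; positivity
  have h1 : ((1 / 2 ^ 11) ^ k * th) ^ 36 ≤ EX ^ 36 := pow_le_pow_left₀ (by positivity) hEX 36
  have h2 : P ^ 28 ≤ X1 ^ 20 * th ^ 8 := by
    calc P ^ 28 ≤ (X1 ^ (5/7 : ℝ) * th ^ (2/7 : ℝ)) ^ 28 := pow_le_pow_left₀ hP0 hP 28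
      _ = X1 ^ 20 * th ^ 8 := by
          rw [mul_pow, ← Real.rpow_natCast, ← Real.rpow_natCast, ← Real.rpow_mul hX1,
            ← Real.rpow_mul hth]
          norm_num
  have h3 : R ^ 9 ≤ th ^ 9 := pow_le_pow_left₀ hR0 hR 9
  have h4 : ((1 / 2 ^ 11) ^ k * th) ^ 36 ≤ 2 ^ k * (X1 ^ 20 * th ^ 8) * th ^ 9 := by
    refine h1.trans (h36.trans ?_)
    gcongr
  have h5 : th ^ 19 ≤ 2 ^ (397 * k) * X1 ^ 20 := by
    have e1 : ((1 / 2 ^ 11 : ℝ) ^ k) ^ 36 * 2 ^ (396 * k) = 1 := by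
      rw [← pow_mul, div_pow, one_pow, ← pow_mul]
      rw [show 11 * (k * 36) = 396 * k by ring]
      rw [one_div, inv_mul_cancel₀ (by positivity)]
    have e2 : th ^ 36 ≤ 2 ^ (397 * k) * X1 ^ 20 * th ^ 17 := by
      calc th ^ 36 = (((1 / 2 ^ 11 : ℝ) ^ k) ^ 36 * 2 ^ (396 * k)) * th ^ 36 := by rw [e1]; ring
        _ = (((1 / 2 ^ 11) ^ k * th) ^ 36) * 2 ^ (396 * k) := by ring
        _ ≤ (2 ^ k * (X1 ^ 20 * th ^ 8) * th ^ 9) * 2 ^ (396 * k) := by gcongr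
        _ = 2 ^ (397 * k) * X1 ^ 20 * th ^ 17 := by
            rw [show 397 * k = k + 396 * k by ring, pow_add]; ring
    have e3 : th ^ 19 * th ^ 17 ≤ (2 ^ (397 * k) * X1 ^ 20) * th ^ 17 := by
      calc th ^ 19 * th ^ 17 = th ^ 36 := by ring
        _ ≤ _ := e2
    exact le_of_mul_le_mul_right e3 (by positivity)
  have h6 : th ^ 19 ≤ (2 ^ (20 * k) * X1) ^ 20 := by
    refine h5.trans ?_
    rw [mul_pow, ← pow_mul]
    have : (2:ℝ) ^ (397 * k) ≤ 2 ^ (20 * k * 20) := pow_le_pow_right₀ (by norm_num) (by omega)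
    gcongr
  have h7 := Real.rpow_le_rpow (by positivity) h6 (show (0:ℝ) ≤ 1/20 by norm_num)
  rw [← Real.rpow_natCast, ← Real.rpow_natCast, ← Real.rpow_mul hth,
    ← Real.rpow_mul (by positivity)] at h7
  norm_num at h7
  norm_num
  exact h7

/-- the version with a part `w` of `th` -/
theorem end20k {w th X1 EX P R : ℝ} (hw : 0 ≤ w) (hth : 0 ≤ th) (hX1 : 0 ≤ X1) (hP0 : 0 ≤ P)
    (hR0 : 0 ≤ R) (k : ℕ) (h36 : EX ^ 36 ≤ 2 ^ k * P ^ 28 * R ^ 9) (hR : R ≤ th)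
    (hP : P ≤ X1 ^ (5/7 : ℝ) * th ^ (2/7 : ℝ)) (hEX : (1 / 2 ^ 11) ^ k * w ≤ EX) :
    w ^ 36 ≤ 2 ^ (397 * k) * X1 ^ 20 * th ^ 17 := by
  have h1 : ((1 / 2 ^ 11) ^ k * w) ^ 36 ≤ EX ^ 36 := pow_le_pow_left₀ (by positivity) hEX 36
  have h2 : P ^ 28 ≤ X1 ^ 20 * th ^ 8 := by
    calc P ^ 28 ≤ (X1 ^ (5/7 : ℝ) * th ^ (2/7 : ℝ)) ^ 28 := pow_le_pow_left₀ hP0 hP 28
      _ = X1 ^ 20 * th ^ 8 := by
          rw [mul_pow, ← Real.rpow_natCast, ← Real.rpow_natCast, ← Real.rpow_mul hX1,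
            ← Real.rpow_mul hth]
          norm_num
  have h3 : R ^ 9 ≤ th ^ 9 := pow_le_pow_left₀ hR0 hR 9
  have h4 : ((1 / 2 ^ 11) ^ k * w) ^ 36 ≤ 2 ^ k * (X1 ^ 20 * th ^ 8) * th ^ 9 := by
    refine h1.trans (h36.trans ?_)
    gcongr
  have e1 : ((1 / 2 ^ 11 : ℝ) ^ k) ^ 36 * 2 ^ (396 * k) = 1 := by
    rw [← pow_mul, div_pow, one_pow, ← pow_mul]
    rw [show 11 * (k * 36) = 396 * k by ring]
    rw [one_div, inv_mul_cancel₀ (by positivity)]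
  calc w ^ 36 = (((1 / 2 ^ 11 : ℝ) ^ k) ^ 36 * 2 ^ (396 * k)) * w ^ 36 := by rw [e1]; ring
    _ = (((1 / 2 ^ 11) ^ k * w) ^ 36) * 2 ^ (396 * k) := by ring
    _ ≤ (2 ^ k * (X1 ^ 20 * th ^ 8) * th ^ 9) * 2 ^ (396 * k) := by gcongr
    _ = 2 ^ (397 * k) * X1 ^ 20 * th ^ 17 := by
        rw [show 397 * k = k + 396 * k by ring, pow_add]; ring

end Pool.Agent.Lib_helper49.Pluri
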