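import Mathlib

/-!
# The four-point inequality

For complex `g1`, `g2` with `|g1| <= 2/3`, `|g2| <= 1/6` put `b = g1/6`, `e = -(2 Re g2)/13` and
`l z = 1 + e z^2 - conj b conj z` for `z` in `{1, i, -1, -i}`. Then the numbers
`X z = |l z|^4 + 2 Re (g1 z l (conj l)^3) + 2 Re (g2 z^2 (conj l)^4)` satisfy
`sum_z (7 X z + (X z)^2) <= 32`.
-/

set_option autoImplicit false

namespace Pool.Agent.Lib_helper49.Pluri

/-- the monomials (coefficient, exponents of `n, c, d, a, s`) of order at least `6` -/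
def restL : List (ℚ × ℕ × ℕ × ℕ × ℕ × ℕ) :=
  [(1415/2106, 0, 1, 1, 1, 1),
   (17/162, 0, 2, 0, 0, 2),
   (-3868/4563, 0, 2, 0, 2, 0),
   (-20/507, 1, 0, 0, 2, 2),
   (-8260/85683, 1, 0, 0, 4, 0),
   (-37/162, 1, 2, 0, 0, 0),
   (-13/162, 2, 0, 0, 0, 2),
   (1093/18252, 2, 0, 0, 2, 0),
   (37/2916, 3, 0, 0, 0, 0),
   (-4270/257049, 0, 0, 1, 4, 1),
   (-80/19773, 0, 1, 0, 3, 2),
   (58772/3341637, 0, 1, 0, 5, 0),
   (-125/2916, 0, 2, 1, 0, 1),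
   (3749/37908, 0, 3, 0, 1, 0),
   (-20/1521, 1, 0, 1, 2, 1),
   (8/1053, 1, 1, 0, 1, 2),
   (332/4563, 1, 1, 0, 3, 0),
   (55/5832, 2, 0, 1, 0, 1),
   (-79/3159, 2, 1, 0, 1, 0),
   (785/59319, 0, 1, 1, 3, 1),
   (17/4563, 0, 2, 0, 2, 2),
   (-4081/355914, 0, 2, 0, 4, 0),
   (-1/1458, 0, 4, 0, 0, 0),
   (-20/85683, 1, 0, 0, 4, 2),
   (-19796/43441281, 1, 0, 0, 6, 0),
   (2/243, 1, 1, 1, 1, 1),
   (-1387/82134, 1, 2, 0, 2, 0),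
   (-1/351, 2, 0, 0, 2, 2),
   (13009/9253764, 2, 0, 0, 4, 0),
   (-5/2916, 2, 2, 0, 0, 0),
   (-1/2916, 3, 0, 0, 0, 2),
   (127/164268, 3, 0, 0, 2, 0),
   (-217/839808, 4, 0, 0, 0, 0),
   (-1246/43441281, 0, 0, 1, 6, 1),
   (-8/1113879, 0, 1, 0, 5, 2),
   (15620/564736653, 0, 1, 0, 7, 0),
   (-19/12636, 0, 2, 1, 2, 1),
   (-7/18954, 0, 3, 0, 1, 2),
   (9415/6406452, 0, 3, 0, 3, 0),
   (-110/2313441, 1, 0, 1, 4, 1),
   (8/177957, 1, 1, 0, 3, 2),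
   (6910/30074733, 1, 1, 0, 5, 0),
   (-7/17496, 1, 2, 1, 0, 1),
   (235/227448, 1, 3, 0, 1, 0),
   (37/109512, 2, 0, 1, 2, 1),
   (1/3159, 2, 1, 0, 1, 2),
   (-316/533871, 2, 1, 0, 3, 0),
   (1/17496, 3, 0, 1, 0, 1),
   (-133/227448, 3, 1, 0, 1, 0),
   (659/60149466, 0, 1, 1, 5, 1),
   (17/4626882, 0, 2, 0, 4, 2),
   (-355/43441281, 0, 2, 0, 6, 0),
   (25/1364688, 0, 3, 1, 1, 1),
   (1/209952, 0, 4, 0, 0, 2),
   (-625/35481888, 0, 4, 0, 2, 0),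
   (-4/43441281, 1, 0, 0, 6, 2),
   (-1180/7341576489, 1, 0, 0, 8, 0),
   (1/59319, 1, 1, 1, 3, 1),
   (-20/771147, 1, 2, 0, 4, 0),
   (-1/355914, 2, 0, 0, 4, 2),
   (71/57921708, 2, 0, 0, 6, 0),
   (-25/2729376, 2, 1, 1, 1, 1),
   (-1/209952, 2, 2, 0, 0, 2),
   (85/35481888, 2, 2, 0, 2, 0),
   (-1/492804, 3, 0, 0, 2, 2),
   (1/41641938, 3, 0, 0, 4, 0),
   (-1249/141927552, 4, 0, 0, 2, 0),
   (-1/419904, 5, 0, 0, 0, 0)]

/-- value of a monomial -/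
noncomputable def mon (n c d a s : ℝ) (t : ℚ × ℕ × ℕ × ℕ × ℕ × ℕ) : ℝ :=
  (t.1 : ℝ) * (n ^ t.2.1 * c ^ t.2.2.1 * d ^ t.2.2.2.1 * a ^ t.2.2.2.2.1 * s ^ t.2.2.2.2.2)

/-- bound of a monomial -/
def bdq (t : ℚ × ℕ × ℕ × ℕ × ℕ × ℕ) : ℚ :=
  |t.1| * (4/9) ^ (t.2.1 + t.2.2.1 + t.2.2.2.1 - 1) * (1/3) ^ (t.2.2.2.2.1 + t.2.2.2.2.2)

lemma mon_le {n c d a s : ℝ} (hn0 : 0 ≤ n) (hn : n ≤ 4/9) (hc : |c| ≤ n) (hd : |d| ≤ n)
    (ha : |a| ≤ 1/3) (hs : |s| ≤ 1/3) (t : ℚ × ℕ × ℕ × ℕ × ℕ × ℕ)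
    (ht : 1 ≤ t.2.1 + t.2.2.1 + t.2.2.2.1) : |mon n c d a s t| ≤ (bdq t : ℝ) * n := by
  obtain ⟨v, i, j, k, l, m⟩ := t
  simp only at ht
  obtain ⟨N, hN⟩ : ∃ N, i + j + k = N + 1 := ⟨i + j + k - 1, by omega⟩
  have e1 : i + j + k - 1 = N := by omega
  simp only [mon, bdq, abs_mul, abs_pow, e1]
  push_cast
  rw [abs_of_nonneg hn0]
  have h1 : n ^ i * |c| ^ j * |d| ^ k ≤ (4/9) ^ N * n := by
    calc n ^ i * |c| ^ j * |d| ^ k ≤ n ^ i * n ^ j * n ^ k := by gcongr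
      _ = n ^ (i + j + k) := by rw [pow_add, pow_add]
      _ = n ^ N * n := by rw [hN, pow_succ]
      _ ≤ (4/9) ^ N * n := by gcongr
  have h2 : |a| ^ l * |s| ^ m ≤ (1/3) ^ (l + m) := by
    calc |a| ^ l * |s| ^ m ≤ (1/3) ^ l * (1/3) ^ m := by gcongr
      _ = (1/3) ^ (l + m) := by rw [pow_add]
  calc |(v : ℝ)| * (n ^ i * |c| ^ j * |d| ^ k * |a| ^ l * |s| ^ m)
      = |(v : ℝ)| * ((n ^ i * |c| ^ j * |d| ^ k) * (|a| ^ l * |s| ^ m)) := by ring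
    _ ≤ |(v : ℝ)| * (((4/9) ^ N * n) * (1/3) ^ (l + m)) := by gcongr
    _ = |(v : ℝ)| * (4/9) ^ N * (1/3) ^ (l + m) * n := by ring

lemma sum_mon_le {n c d a s : ℝ} (hn0 : 0 ≤ n) (hn : n ≤ 4/9) (hc : |c| ≤ n) (hd : |d| ≤ n)
    (ha : |a| ≤ 1/3) (hs : |s| ≤ 1/3) (L : List (ℚ × ℕ × ℕ × ℕ × ℕ × ℕ))
    (hL : ∀ t ∈ L, 1 ≤ t.2.1 + t.2.2.1 + t.2.2.2.1) :
    |(L.map (mon n c d a s)).sum| ≤ ((L.map bdq).sum : ℚ) * n := by
  induction L with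
  | nil => simp
  | cons t L ih =>
    have h1 := mon_le hn0 hn hc hd ha hs t (hL t (by simp))
    have h2 := ih (fun t ht => hL t (by simp [ht]))
    rw [List.map_cons, List.sum_cons, List.map_cons, List.sum_cons, Rat.cast_add]
    calc |mon n c d a s t + (L.map (mon n c d a s)).sum|
        ≤ |mon n c d a s t| + |(L.map (mon n c d a s)).sum| := abs_add_le _ _
      _ ≤ (bdq t : ℝ) * n + ((L.map bdq).sum : ℚ) * n := add_le_add h1 h2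
      _ = ((bdq t : ℝ) + ((L.map bdq).sum : ℚ)) * n := by ring

lemma restL_ok : ∀ t ∈ restL, 1 ≤ t.2.1 + t.2.2.1 + t.2.2.2.1 := by
  unfold restL; decide

lemma restL_bd : (restL.map bdq).sum ≤ 16/100 := by
  norm_num [restL, bdq]

/-- the main part -/
noncomputable def mainP (n c d a s : ℝ) : ℝ :=
  (666/169)*(a^2) + (20/9)*(n) + (11/9)*(d*s) + (-161/117)*(c*a) + (-5978/28561)*(a^4) + (-379/162)*(c^2) + (-4/9)*(n*s^2) + (-28/13)*(n*a^2) + (-149/648)*(n^2) + (-35/39)*(d*a^2*s) + (-8/39)*(c*a*s^2) + (7679/6591)*(c*a^3) + (-14/81)*(n*d*s) + (1055/702)*(n*c*a) + (-20804/4826809)*(a^6) + (-9050/815730721)*(a^8) + (-2/815730721)*(a^10)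

lemma main_pos {n c d a s : ℝ} (hn0 : 0 ≤ n) (hn : n ≤ 4/9) (hc : |c| ≤ n) (hd : |d| ≤ n)
    (has : a^2 + s^2 ≤ 1/9) : 16/100 * n ≤ mainP n c d a s := by
  have ha2 : a^2 ≤ 1/9 := by nlinarith [sq_nonneg s]
  have hs2 : s^2 ≤ 1/9 := by nlinarith [sq_nonneg a]
  have ha : |a| ≤ 1/3 := by
    apply abs_le_of_sq_le_sq _ (by norm_num)
    norm_num; exact ha2
  have hs : |s| ≤ 1/3 := by
    apply abs_le_of_sq_le_sq _ (by norm_num)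
    norm_num; exact hs2
  have k1 : |11/9 - 14/81*n - 35/39*a^2| ≤ 11/9 := by
    rw [abs_le]; constructor <;> nlinarith [sq_nonneg a]
  have k2 : |(-161/117) + 1055/702*n + 7679/6591*a^2 - 8/39*s^2| ≤ 7/5 := by
    rw [abs_le]; constructor <;> nlinarith [sq_nonneg a, sq_nonneg s]
  have h3 : |d*s*(11/9 - 14/81*n - 35/39*a^2)| ≤ 11/27*n := by
    rw [abs_mul, abs_mul]
    calc |d| * |s| * (abs (11/9 - 14/81*n - 35/39*a^2)) ≤ n*(1/3)*(11/9) := by gcongr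
      _ = 11/27*n := by ring
  have h4 : |c*a*((-161/117) + 1055/702*n + 7679/6591*a^2 - 8/39*s^2)| ≤ 7/5*(n*|a|) := by
    rw [abs_mul, abs_mul]
    calc |c| * |a| * (abs ((-161/117) + 1055/702*n + 7679/6591*a^2 - 8/39*s^2))
        ≤ n * |a| * (7/5) := by gcongr
      _ = 7/5*(n*|a|) := by ring
  have h5 : 7/5*(n*|a|) ≤ 5/2*a^2 + 49/250*n^2 := by
    have := sq_nonneg (|a| - 7/25*n)
    have h : |a|^2 = a^2 := sq_abs a
    nlinarith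
  have h6 : n^2 ≤ 4/9*n := by nlinarith
  have h7 : n*a^2 ≤ 4/9*a^2 := by nlinarith [sq_nonneg a]
  have h8 : n*s^2 ≤ 1/9*n := by nlinarith
  have h9 : a^4 ≤ 1/9*a^2 := by nlinarith [sq_nonneg a]
  have h10 : a^6 ≤ 1/81*a^2 := by
    have : a^6 = a^4*a^2 := by ring
    nlinarith [sq_nonneg a]
  have h11 : a^8 ≤ 1/81*a^2 := by
    have : a^8 = a^6*a^2 := by ring
    have h6' : 0 ≤ a^6 := by positivity
    nlinarith [sq_nonneg a]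
  have h12 : a^10 ≤ 1/81*a^2 := by
    have : a^10 = a^8*a^2 := by ring
    have h6' : 0 ≤ a^8 := by positivity
    nlinarith [sq_nonneg a]
  have h13 : c^2 ≤ n^2 := by
    have := abs_le.1 hc
    nlinarith
  have e3 := (abs_le.1 h3).1
  have e4 := (abs_le.1 h4).1
  have hp : 0 ≤ a^2 := sq_nonneg a
  unfold mainP
  nlinarith

/-- the summand at a point, `z`-rotated: `lb = m - ζ/6`, `ζ = x + i y`, weight `g + i h` -/
noncomputable def Xr (m x y g h : ℝ) : ℝ :=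
  let U := m - x/6
  let V := -(y/6)
  (U^2+V^2)^2 + 2*(U^2+V^2)*(x*(U^2-V^2) - y*(2*U*V))
    + 2*(g*((U^2-V^2)^2-(2*U*V)^2) - h*(2*(U^2-V^2)*(2*U*V)))

set_option maxRecDepth 20000 in
lemma four_identity (p q a s : ℝ) :
    32 - (7*(Xr (1-a/13) p q (a/2) (s/2) + Xr (1-a/13) (-p) (-q) (a/2) (s/2)
        + Xr (1+a/13) (-q) p (-a/2) (-s/2) + Xr (1+a/13) q (-p) (-a/2) (-s/2))
      + ((Xr (1-a/13) p q (a/2) (s/2))^2 + (Xr (1-a/13) (-p) (-q) (a/2) (s/2))^2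
        + (Xr (1+a/13) (-q) p (-a/2) (-s/2))^2 + (Xr (1+a/13) q (-p) (-a/2) (-s/2))^2))
    = 2 * (mainP (p^2+q^2) (p^2-q^2) (2*p*q) a s
        + (restL.map (mon (p^2+q^2) (p^2-q^2) (2*p*q) a s)).sum) := by
  simp only [restL, List.map_cons, List.map_nil, List.sum_cons, List.sum_nil, mon, mainP, Xr]
  push_cast
  ring

theorem four_real (p q a s : ℝ) (h1 : p^2+q^2 ≤ 4/9) (h2 : a^2+s^2 ≤ 1/9) :
    7*(Xr (1-a/13) p q (a/2) (s/2) + Xr (1-a/13) (-p) (-q) (a/2) (s/2)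
        + Xr (1+a/13) (-q) p (-a/2) (-s/2) + Xr (1+a/13) q (-p) (-a/2) (-s/2))
      + ((Xr (1-a/13) p q (a/2) (s/2))^2 + (Xr (1-a/13) (-p) (-q) (a/2) (s/2))^2
        + (Xr (1+a/13) (-q) p (-a/2) (-s/2))^2 + (Xr (1+a/13) q (-p) (-a/2) (-s/2))^2) ≤ 32 := by
  have hn0 : 0 ≤ p^2+q^2 := by positivity
  have hc : |p^2-q^2| ≤ p^2+q^2 := by
    rw [abs_le]; constructor <;> nlinarith [sq_nonneg p, sq_nonneg q]
  have hd : |2*p*q| ≤ p^2+q^2 := by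
    rw [abs_le]; constructor <;> nlinarith [sq_nonneg (p+q), sq_nonneg (p-q)]
  have ha : |a| ≤ 1/3 := by
    apply abs_le_of_sq_le_sq _ (by norm_num)
    nlinarith [sq_nonneg s]
  have hs : |s| ≤ 1/3 := by
    apply abs_le_of_sq_le_sq _ (by norm_num)
    nlinarith [sq_nonneg a]
  have A := main_pos hn0 h1 hc hd h2
  have B := (abs_le.1 (sum_mon_le hn0 h1 hc hd ha hs restL restL_ok)).1
  have C : (((restL.map bdq).sum : ℚ) : ℝ) ≤ 16/100 := by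
    have h : (((restL.map bdq).sum : ℚ) : ℝ) ≤ ((16/100 : ℚ) : ℝ) := Rat.cast_le.2 restL_bd
    rw [show ((16/100 : ℚ) : ℝ) = 16/100 by norm_num] at h
    exact h
  have D : (((restL.map bdq).sum : ℚ) : ℝ) * (p^2+q^2) ≤ 16/100*(p^2+q^2) := by gcongr
  have I := four_identity p q a s
  linarith

end Pool.Agent.Lib_helper49.Pluri
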