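import Pool.Agent.Lib_helper49.Pluri.Four

/-!
# The four-point inequality, complex form and power form
-/

set_option autoImplicit false

namespace Pool.Agent.Lib_helper49.Pluri

open Complex ComplexConjugate

/-- the weight `l z = 1 + e z^2 - conj b conj z` -/
noncomputable def lam (b : ℂ) (e : ℝ) (z : ℂ) : ℂ := 1 + e * z^2 - conj b * conj z

/-- `X z = |l|^4 + 2 Re(g1 z l (conj l)^3) + 2 Re(g2 z^2 (conj l)^4)` -/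
noncomputable def XX (g1 g2 b : ℂ) (e : ℝ) (z : ℂ) : ℝ :=
  ‖lam b e z‖^4 + 2*(g1*z*lam b e z*(conj (lam b e z))^3).re
    + 2*(g2*z^2*(conj (lam b e z))^4).re

lemma XX_eq (g1 g2 b : ℂ) (e : ℝ) (z : ℂ) (m x y g h : ℝ) (hx : g1*z = ⟨x,y⟩)
    (hg : g2*z^2 = ⟨g,h⟩) (hl : lam b e z = ⟨m - x/6, y/6⟩) :
    XX g1 g2 b e z = Xr m x y g h := by
  unfold XX
  rw [hx, hg, hl]
  have h1 : ‖(⟨m - x/6, y/6⟩ : ℂ)‖^4 = ((m-x/6)^2+(y/6)^2)^2 := by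
    have : ‖(⟨m - x/6, y/6⟩ : ℂ)‖^2 = (m-x/6)^2+(y/6)^2 := by
      rw [← Complex.normSq_eq_norm_sq, Complex.normSq_mk]; ring
    calc ‖(⟨m - x/6, y/6⟩ : ℂ)‖^4 = (‖(⟨m - x/6, y/6⟩ : ℂ)‖^2)^2 := by ring
      _ = _ := by rw [this]
  have h2 : conj (⟨m - x/6, y/6⟩ : ℂ) = ⟨m - x/6, -(y/6)⟩ := rfl
  rw [h1, h2]
  simp only [pow_succ, pow_zero, one_mul, Complex.mul_re, Complex.mul_im, Xr]
  ring

lemma lam_eq (p q e : ℝ) (z : ℂ) : lam ((⟨p,q⟩ : ℂ)/6) e z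
    = 1 + e * z^2 - ⟨p/6, -(q/6)⟩ * conj z := by
  have : conj ((⟨p,q⟩ : ℂ)/6) = ⟨p/6, -(q/6)⟩ := by
    have h : ((⟨p,q⟩ : ℂ)/6) = ⟨p/6, q/6⟩ := by
      rw [div_eq_iff (by norm_num)]
      apply Complex.ext <;> simp
    rw [h]; rfl
  rw [lam, this]

theorem four_complex (g1 g2 : ℂ) (h1 : ‖g1‖ ≤ 2/3) (h2 : ‖g2‖ ≤ 1/6) :
    7*(XX g1 g2 (g1/6) (-(2*g2.re/13)) 1 + XX g1 g2 (g1/6) (-(2*g2.re/13)) (-1)
        + XX g1 g2 (g1/6) (-(2*g2.re/13)) I + XX g1 g2 (g1/6) (-(2*g2.re/13)) (-I))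
      + ((XX g1 g2 (g1/6) (-(2*g2.re/13)) 1)^2 + (XX g1 g2 (g1/6) (-(2*g2.re/13)) (-1))^2
        + (XX g1 g2 (g1/6) (-(2*g2.re/13)) I)^2 + (XX g1 g2 (g1/6) (-(2*g2.re/13)) (-I))^2)
      ≤ 32 := by
  obtain ⟨p, q⟩ := g1
  obtain ⟨a', s'⟩ := g2
  obtain ⟨a, rfl⟩ : ∃ a, a' = a/2 := ⟨2*a', by ring⟩
  obtain ⟨s, rfl⟩ : ∃ s, s' = s/2 := ⟨2*s', by ring⟩
  have hp : p^2+q^2 ≤ 4/9 := by
    have : ‖(⟨p, q⟩ : ℂ)‖^2 = p^2+q^2 := by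
      rw [← Complex.normSq_eq_norm_sq, Complex.normSq_mk]; ring
    have h := pow_le_pow_left₀ (norm_nonneg _) h1 2
    rw [this] at h
    norm_num at h; exact h
  have hq : a^2+s^2 ≤ 1/9 := by
    have : ‖(⟨a/2, s/2⟩ : ℂ)‖^2 = (a/2)^2+(s/2)^2 := by
      rw [← Complex.normSq_eq_norm_sq, Complex.normSq_mk]; ring
    have h := pow_le_pow_left₀ (norm_nonneg _) h2 2
    rw [this] at h
    nlinarith
  have e1 : XX ⟨p,q⟩ ⟨a/2,s/2⟩ ((⟨p,q⟩ : ℂ)/6) (-(2*(a/2)/13)) 1 = Xr (1-a/13) p q (a/2) (s/2) := by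
    apply XX_eq
    · simp
    · simp
    · apply Complex.ext <;> simp [lam_eq] <;> ring
  have e2 : XX ⟨p,q⟩ ⟨a/2,s/2⟩ ((⟨p,q⟩ : ℂ)/6) (-(2*(a/2)/13)) (-1)
      = Xr (1-a/13) (-p) (-q) (a/2) (s/2) := by
    apply XX_eq
    · apply Complex.ext <;> simp
    · simp
    · apply Complex.ext <;> simp [lam_eq] <;> ring
  have e3 : XX ⟨p,q⟩ ⟨a/2,s/2⟩ ((⟨p,q⟩ : ℂ)/6) (-(2*(a/2)/13)) I
      = Xr (1+a/13) (-q) p (-a/2) (-s/2) := by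
    apply XX_eq
    · apply Complex.ext <;> simp
    · apply Complex.ext <;> simp <;> ring
    · apply Complex.ext <;> simp [lam_eq] <;> ring
  have e4 : XX ⟨p,q⟩ ⟨a/2,s/2⟩ ((⟨p,q⟩ : ℂ)/6) (-(2*(a/2)/13)) (-I)
      = Xr (1+a/13) q (-p) (-a/2) (-s/2) := by
    apply XX_eq
    · apply Complex.ext <;> simp
    · apply Complex.ext <;> simp <;> ring
    · apply Complex.ext <;> simp [lam_eq] <;> ring
  have key := four_real p q a s hp hq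
  simp only [e1, e2, e3, e4]
  exact key

/-- Bernoulli: `X^(9/8) <= (7 X + X^2)/8` -/
lemma rpow_le_bern {X : ℝ} (hX : 0 ≤ X) : X ^ (9/8 : ℝ) ≤ (7*X + X^2)/8 := by
  have h1 : X ^ (9/8 : ℝ) = X * X ^ (1/8 : ℝ) := by
    rcases hX.eq_or_lt with h | h
    · rw [← h]; simp
    · rw [show (9/8 : ℝ) = 1 + 1/8 by norm_num, Real.rpow_add h, Real.rpow_one]
  have h2 : X ^ (1/8 : ℝ) ≤ 1 + 1/8 * (X - 1) := by
    have := _root_.rpow_one_add_le_one_add_mul_self (s := X - 1) (p := 1/8) (by linarith)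
      (by norm_num) (by norm_num)
    rwa [show 1 + (X - 1) = X by ring] at this
  rw [h1]
  calc X * X ^ (1/8 : ℝ) ≤ X * (1 + 1/8 * (X - 1)) := by gcongr
    _ = (7*X + X^2)/8 := by ring

/-- **Four-point inequality, power form.** -/
theorem four_rpow (g1 g2 : ℂ) (h1 : ‖g1‖ ≤ 2/3) (h2 : ‖g2‖ ≤ 1/6)
    (hX : ∀ z : ℂ, z ∈ ({1, -1, I, -I} : Set ℂ) → 0 ≤ XX g1 g2 (g1/6) (-(2*g2.re/13)) z) :
    (XX g1 g2 (g1/6) (-(2*g2.re/13)) 1) ^ (9/8 : ℝ)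
      + (XX g1 g2 (g1/6) (-(2*g2.re/13)) (-1)) ^ (9/8 : ℝ)
      + (XX g1 g2 (g1/6) (-(2*g2.re/13)) I) ^ (9/8 : ℝ)
      + (XX g1 g2 (g1/6) (-(2*g2.re/13)) (-I)) ^ (9/8 : ℝ) ≤ 4 := by
  have key := four_complex g1 g2 h1 h2
  have a1 := rpow_le_bern (hX 1 (by simp))
  have a2 := rpow_le_bern (hX (-1) (by simp))
  have a3 := rpow_le_bern (hX I (by simp))
  have a4 := rpow_le_bern (hX (-I) (by simp))
  linarith

end Pool.Agent.Lib_helper49.Pluri
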