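import Pool.Agent.Lib_helper49.Pluri.BQ

/-!
# (S4): `(E |g|^2)^(19/20) <= E |g|` for multi-affine `|g| <= 1` on `{1, -1, i, -i}^n`
-/

set_option autoImplicit false

namespace Pool.Agent.Lib_helper49.Pluri

open Complex ComplexConjugate

lemma MA_zero : ∀ n : ℕ, MA n (fun _ => 0) := by
  intro n
  induction n with
  | zero => trivial
  | succ n ih => exact ⟨_, _, ih, ih, fun k u => by simp⟩

lemma MA_sum {n : ℕ} {ι : Type*} (s : Finset ι) (a : ι → ℂ) (g : ι → (Fin n → Fin 4) → ℂ)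
    (h : ∀ i, MA n (g i)) : MA n (fun x => ∑ i ∈ s, a i * g i x) := by
  classical
  induction s using Finset.induction_on with
  | empty => simpa using MA_zero n
  | insert i s hi ih =>
    have := (h i).lin ih (a i) 1
    simpa [Finset.sum_insert hi] using this

lemma prod_mem_succ {n : ℕ} (S : Finset (Fin (n+1))) (F : Fin (n+1) → ℂ) :
    ∏ i ∈ S, F i = (if 0 ∈ S then F 0 else 1) *
      ∏ i ∈ Finset.univ.filter (fun i : Fin n => i.succ ∈ S), F i.succ := by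
  have h := Finset.prod_ite_mem Finset.univ S F
  rw [Finset.univ_inter] at h
  rw [← h, Fin.prod_univ_succ, Finset.prod_filter]

lemma MA_mon : ∀ (n : ℕ) (S : Finset (Fin n)), MA n (fun x => ∏ i ∈ S, qv (x i)) := by
  intro n
  induction n with
  | zero => intro S; trivial
  | succ n ih =>
    intro S
    by_cases h : 0 ∈ S
    · refine ⟨_, _, MA_zero n, ih (Finset.univ.filter (fun i : Fin n => i.succ ∈ S)), ?_⟩
      intro k u
      show ∏ i ∈ S, qv ((Fin.cons k u : Fin (n+1) → Fin 4) i) = _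
      rw [prod_mem_succ S (fun i => qv ((Fin.cons k u : Fin (n+1) → Fin 4) i)), if_pos h]
      simp
    · refine ⟨_, _, ih (Finset.univ.filter (fun i : Fin n => i.succ ∈ S)), MA_zero n, ?_⟩
      intro k u
      show ∏ i ∈ S, qv ((Fin.cons k u : Fin (n+1) → Fin 4) i) = _
      rw [prod_mem_succ S (fun i => qv ((Fin.cons k u : Fin (n+1) → Fin 4) i)), if_neg h]
      simp

lemma MA_pol (n : ℕ) (c : Finset (Fin n) → ℂ) :
    MA n (fun x => ∑ S, c S * ∏ i ∈ S, qv (x i)) :=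
  MA_sum Finset.univ c (fun S x => ∏ i ∈ S, qv (x i)) (MA_mon n)

lemma sum_qv_pair (p q : Prop) [Decidable p] [Decidable q] :
    ∑ k : Fin 4, (if p then qv k else 1) * conj (if q then qv k else 1)
      = if (p ↔ q) then 4 else 0 := by
  have hI : I * -I = 1 := by rw [mul_neg, Complex.I_mul_I, neg_neg]
  by_cases hp : p <;> by_cases hq : q <;>
    simp [hp, hq, Fin.sum_univ_four, qv] <;> norm_num

lemma orth {n : ℕ} (S T : Finset (Fin n)) :
    Ex (fun x : Fin n → Fin 4 => (∏ i ∈ S, qv (x i)) * conj (∏ i ∈ T, qv (x i)))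
      = if S = T then 1 else 0 := by
  classical
  have h1 : ∀ x : Fin n → Fin 4, (∏ i ∈ S, qv (x i)) * conj (∏ i ∈ T, qv (x i))
      = ∏ i, ((if i ∈ S then qv (x i) else 1) * conj (if i ∈ T then qv (x i) else 1)) := by
    intro x
    rw [Finset.prod_mul_distrib, ← map_prod, Finset.prod_ite_mem, Finset.prod_ite_mem]
    simp
  unfold Ex
  simp only [h1]
  have h2 : ∑ x : Fin n → Fin 4, ∏ i, ((if i ∈ S then qv (x i) else 1) *
        conj (if i ∈ T then qv (x i) else 1))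
      = ∏ i : Fin n, ∑ k : Fin 4, ((if i ∈ S then qv k else 1) * conj (if i ∈ T then qv k else 1)) := by
    rw [Finset.prod_univ_sum]
    simp
  rw [h2]
  simp only [sum_qv_pair]
  split_ifs with h
  · subst h
    simp
  · have : ∃ i, ¬ (i ∈ S ↔ i ∈ T) := by
      by_contra hc
      push Not at hc
      exact h (Finset.ext hc)
    obtain ⟨i, hi⟩ := this
    rw [Finset.prod_eq_zero (Finset.mem_univ i) (if_neg hi), zero_div]

lemma Ex_sum {n : ℕ} {ι : Type*} (s : Finset ι) (F : ι → (Fin n → Fin 4) → ℂ) :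
    Ex (fun x => ∑ i ∈ s, F i x) = ∑ i ∈ s, Ex (F i) := by
  unfold Ex
  rw [Finset.sum_comm, Finset.sum_div]

lemma parseval {n : ℕ} (c : Finset (Fin n) → ℂ) :
    Ex (fun x : Fin n → Fin 4 => ‖∑ S, c S * ∏ i ∈ S, qv (x i)‖^2) = ∑ S, ‖c S‖^2 := by
  have h : ((Ex (fun x : Fin n → Fin 4 => ‖∑ S, c S * ∏ i ∈ S, qv (x i)‖^2) : ℝ) : ℂ)
      = ((∑ S, ‖c S‖^2 : ℝ) : ℂ) := by
    rw [← Ex_ofReal]
    have h1 : (fun x : Fin n → Fin 4 => ((‖∑ S, c S * ∏ i ∈ S, qv (x i)‖^2 : ℝ) : ℂ))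
        = (fun x => ∑ S, ∑ T, (c S * conj (c T)) *
            ((∏ i ∈ S, qv (x i)) * conj (∏ i ∈ T, qv (x i)))) := by
      funext x
      rw [← Complex.normSq_eq_norm_sq, ← Complex.mul_conj, map_sum, Finset.sum_mul_sum]
      apply Finset.sum_congr rfl
      intro S _
      apply Finset.sum_congr rfl
      intro T _
      rw [map_mul]; ring
    rw [h1, Ex_sum]
    push_cast
    apply Finset.sum_congr rfl
    intro S _
    rw [Ex_sum, Finset.sum_eq_single S]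
    · rw [Ex_mul, orth, if_pos rfl, mul_one, Complex.mul_conj, Complex.normSq_eq_norm_sq]
      push_cast; rfl
    · intro T _ hT
      rw [Ex_mul, orth, if_neg (Ne.symm hT), mul_zero]
    · intro hS; exact absurd (Finset.mem_univ _) hS
  exact_mod_cast h

/-- Hoelder / log-convexity -/
lemma logconv {n : ℕ} (F : (Fin n → Fin 4) → ℝ) (hF : ∀ x, 0 ≤ F x) :
    Ex (fun x => F x ^ (9/7 : ℝ)) ≤ (Ex F) ^ (5/7 : ℝ) * (Ex (fun x => F x ^ 2)) ^ (2/7 : ℝ) := by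
  have hpq : Real.HolderConjugate (7/5) (7/2) := by
    rw [Real.holderConjugate_iff]; norm_num
  have h1 := Real.inner_le_Lp_mul_Lq_of_nonneg (Finset.univ : Finset (Fin n → Fin 4)) hpq
    (f := fun x => F x ^ (5/7 : ℝ)) (g := fun x => (F x ^ 2) ^ (2/7 : ℝ))
    (fun k _ => Real.rpow_nonneg (hF k) _) (fun k _ => Real.rpow_nonneg (by positivity) _)
  have e0 : ∀ x, F x ^ (5/7 : ℝ) * (F x ^ 2) ^ (2/7 : ℝ) = F x ^ (9/7 : ℝ) := by
    intro x
    rw [← Real.rpow_natCast, ← Real.rpow_mul (hF x), ← Real.rpow_add_of_nonneg (hF x)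
      (by norm_num) (by norm_num)]
    norm_num
  have e1 : ∀ x, (F x ^ (5/7 : ℝ)) ^ (7/5 : ℝ) = F x := by
    intro k; rw [← Real.rpow_mul (hF k)]; norm_num
  have e2 : ∀ x, ((F x ^ 2) ^ (2/7 : ℝ)) ^ (7/2 : ℝ) = F x ^ 2 := by
    intro k; rw [← Real.rpow_mul (by positivity)]; norm_num
  simp only [e0, e1, e2] at h1
  have hs1 : 0 ≤ ∑ x, F x := Finset.sum_nonneg (fun k _ => hF k)
  have hs2 : 0 ≤ ∑ x, F x ^ 2 := Finset.sum_nonneg (fun k _ => by positivity)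
  unfold Ex
  rw [Real.div_rpow hs1 (by positivity), Real.div_rpow hs2 (by positivity), div_mul_div_comm,
    ← Real.rpow_add (by positivity)]
  rw [show (5/7 + 2/7 : ℝ) = 1 by norm_num, Real.rpow_one]
  have e3 : (1 / (7/5 : ℝ)) = 5/7 := by norm_num
  have e4 : (1 / (7/2 : ℝ)) = 2/7 := by norm_num
  rw [e3, e4] at h1
  gcongr

theorem s4_MA (n : ℕ) (g : (Fin n → Fin 4) → ℂ) (hg : MA n g) (hbd : ∀ x, ‖g x‖ ≤ 1) :
    (Ex (fun x => ‖g x‖^2)) ^ (19/20 : ℝ) ≤ Ex (fun x => ‖g x‖) := by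
  set θ := Ex (fun x => ‖g x‖^2) with hθ
  set X := Ex (fun x => ‖g x‖) with hX
  have hX0 : 0 ≤ X := Ex_nonneg (fun x => norm_nonneg _)
  have hθ0 : 0 ≤ θ := Ex_nonneg (fun x => by positivity)
  rcases hθ0.eq_or_lt with h0 | hpos
  · rw [← h0, Real.zero_rpow (by norm_num)]; exact hX0
  have h1 := bq n g g hg hg
  have e1 : ‖Ex (fun x => g x * conj (g x))‖ = θ := by
    have : (fun x => g x * conj (g x)) = (fun x => ((‖g x‖^2 : ℝ) : ℂ)) := by
      funext x; rw [Complex.mul_conj, Complex.normSq_eq_norm_sq]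
    rw [this, Ex_ofReal, Complex.norm_real, Real.norm_eq_abs, abs_of_nonneg hθ0]
  rw [e1] at h1
  have h2 := logconv (fun x => ‖g x‖) (fun x => norm_nonneg _)
  have h3 : Ex (fun x => ‖g x‖ ^ 4) ≤ θ := by
    apply Ex_mono
    intro x
    have := hbd x
    have h0 := norm_nonneg (g x)
    have : ‖g x‖^2 ≤ 1 := by nlinarith
    nlinarith [sq_nonneg (‖g x‖), mul_nonneg (sq_nonneg ‖g x‖) (sub_nonneg.2 this)]
  have h4 : (Ex (fun x => ‖g x‖ ^ (9/7 : ℝ))) ^ (7/9 : ℝ) ≤ X ^ (5/9 : ℝ) * θ ^ (2/9 : ℝ) := by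
    calc (Ex (fun x => ‖g x‖ ^ (9/7 : ℝ))) ^ (7/9 : ℝ)
        ≤ (X ^ (5/7 : ℝ) * θ ^ (2/7 : ℝ)) ^ (7/9 : ℝ) :=
          Real.rpow_le_rpow (Ex_nonneg (fun x => Real.rpow_nonneg (norm_nonneg _) _)) h2
            (by norm_num)
      _ = X ^ (5/9 : ℝ) * θ ^ (2/9 : ℝ) := by
          rw [Real.mul_rpow (Real.rpow_nonneg hX0 _) (Real.rpow_nonneg hθ0 _),
            ← Real.rpow_mul hX0, ← Real.rpow_mul hθ0]
          norm_num
  have h5 : (Ex (fun x => ‖g x‖ ^ 4)) ^ (1/4 : ℝ) ≤ θ ^ (1/4 : ℝ) :=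
    Real.rpow_le_rpow (Ex_nonneg (fun x => by positivity)) h3 (by norm_num)
  have h6 : θ ≤ (X ^ (5/9 : ℝ) * θ ^ (2/9 : ℝ)) * θ ^ (1/4 : ℝ) :=
    h1.trans (mul_le_mul h4 h5
      (Real.rpow_nonneg (Ex_nonneg (fun x => by positivity)) _)
      (mul_nonneg (Real.rpow_nonneg hX0 _) (Real.rpow_nonneg hθ0 _)))
  have h7 : θ ^ (19/36 : ℝ) * θ ^ (17/36 : ℝ) ≤ X ^ (5/9 : ℝ) * θ ^ (17/36 : ℝ) := by
    rw [← Real.rpow_add hpos]
    rw [show (19/36 + 17/36 : ℝ) = 1 by norm_num, Real.rpow_one]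
    refine h6.trans (le_of_eq ?_)
    rw [mul_assoc, ← Real.rpow_add hpos]
    norm_num
  have h8 : θ ^ (19/36 : ℝ) ≤ X ^ (5/9 : ℝ) :=
    le_of_mul_le_mul_right h7 (Real.rpow_pos_of_pos hpos _)
  have h9 := Real.rpow_le_rpow (Real.rpow_nonneg hθ0 _) h8 (show (0:ℝ) ≤ 9/5 by norm_num)
  rw [← Real.rpow_mul hθ0, ← Real.rpow_mul hX0] at h9
  norm_num at h9
  norm_num
  exact h9

/-- **(S4)** -/
theorem s4 (n : ℕ) (c : Finset (Fin n) → ℂ)
    (hbd : ∀ x : Fin n → Fin 4, ‖∑ S, c S * ∏ i ∈ S, qv (x i)‖ ≤ 1) :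
    (∑ S, ‖c S‖^2) ^ (19/20 : ℝ)
      ≤ (∑ x : Fin n → Fin 4, ‖∑ S, c S * ∏ i ∈ S, qv (x i)‖) / 4 ^ n := by
  have := s4_MA n _ (MA_pol n c) hbd
  rw [parseval] at this
  exact this

end Pool.Agent.Lib_helper49.Pluri
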